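import Mathlib

set_option autoImplicit false

namespace Pool.Agent.Helper889.Fg

abbrev C := ℕ → Bool

end Pool.Agent.Helper889.Fg
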