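import Mathlib
import Pool.Agent.Helper889.Fg.Defs

set_option autoImplicit false
set_option linter.unusedSectionVars false
set_option linter.unusedVariables false

namespace Pool.Agent.Helper889.Fg



/-- TARGET -/
theorem cover (G : Subgroup (C ≃ₜ C)) (hmin : ∀ x : C, Dense {y : C | ∃ g ∈ G, g x = y})
    (U : Set C) (hU : IsClopen U) (hne : U.Nonempty) :
    ∃ (n : ℕ) (V : Fin n → Set C) (γ : Fin n → (C ≃ₜ C)), (∀ i, γ i ∈ G) ∧ (∀ i j, i ≠ j → Disjoint (V i) (V j)) ∧
      (∀ x, ∃ i, x ∈ V i) ∧ ∀ i, γ i '' V i ⊆ U := by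
  have h1 : ∀ x : C, ∃ g : C ≃ₜ C, g ∈ G ∧ g x ∈ U := by
    intro x
    obtain ⟨y, hyU, g, hg, hgy⟩ := (hmin x).inter_open_nonempty U hU.isOpen hne
    exact ⟨g, hg, hgy ▸ hyU⟩
  choose g hgG hgU using h1
  obtain ⟨t, -, ht⟩ := (isCompact_univ (X := C)).elim_nhds_subcover (fun x => (g x) ⁻¹' U)
    (fun x _ => (hU.isOpen.preimage (g x).continuous).mem_nhds (hgU x))
  let e : Fin t.card ≃ t := t.equivFin.symm
  refine ⟨t.card, fun i => (g (e i : C)) ⁻¹' U \ ⋃ j : Fin t.card, ⋃ _ : j < i, (g (e j : C)) ⁻¹' U,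
    fun i => g (e i : C), fun i => hgG _, ?_, ?_, ?_⟩
  · have key : ∀ i j : Fin t.card, i < j →
        Disjoint ((g (e i : C)) ⁻¹' U \ ⋃ k : Fin t.card, ⋃ _ : k < i, (g (e k : C)) ⁻¹' U)
          ((g (e j : C)) ⁻¹' U \ ⋃ k : Fin t.card, ⋃ _ : k < j, (g (e k : C)) ⁻¹' U) := by
      intro i j hij
      rw [Set.disjoint_left]
      rintro x ⟨hx1, _⟩ ⟨_, hx2⟩
      apply hx2
      simp only [Set.mem_iUnion]
      exact ⟨i, hij, hx1⟩
    intro i j hij
    rcases lt_or_gt_of_ne hij with h | h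
    · exact key i j h
    · exact (key j i h).symm
  · intro x
    classical
    have hx := ht (Set.mem_univ x)
    simp only [Set.mem_iUnion] at hx
    obtain ⟨y, hy, hxy⟩ := hx
    let S : Finset (Fin t.card) := Finset.univ.filter (fun i => x ∈ (g (e i : C)) ⁻¹' U)
    have hS : S.Nonempty := by
      refine ⟨e.symm ⟨y, hy⟩, ?_⟩
      simp only [S, Finset.mem_filter, Finset.mem_univ, true_and, Equiv.apply_symm_apply]
      exact hxy
    refine ⟨S.min' hS, ?_, ?_⟩
    · have := S.min'_mem hS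
      simp only [S, Finset.mem_filter, Finset.mem_univ, true_and] at this
      exact this
    · simp only [Set.mem_iUnion, not_exists]
      intro j hj hxj
      have : j ∈ S := by
        simp only [S, Finset.mem_filter, Finset.mem_univ, true_and]
        exact hxj
      exact absurd (S.min'_le j this) (not_le.mpr hj)
  · rintro i _ ⟨x, ⟨hx, _⟩, rfl⟩
    exact hx

end Pool.Agent.Helper889.Fg
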