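import Mathlib
import Pool.Agent.Helper889.Fg.Defs

set_option autoImplicit false
set_option linter.unusedSectionVars false
set_option linter.unusedVariables false

namespace Pool.Agent.Helper889.Fg



theorem extend_mean_dec (μ : Set C → ℝ)
    (hadd : ∀ A B : Set C, Disjoint A B → μ (A ∪ B) = μ A + μ B)
    (n : ℕ) (V : Fin n → Set C) (hdis : ∀ i j, i ≠ j → Disjoint (V i) (V j))
    (hcov : ∀ x, ∃ i, x ∈ V i) (f : C → C) (hf : Function.Injective f) (A : Set C) :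
    μ (f '' A) = ∑ j, μ (f '' (A ∩ V j)) := by
  classical
  have hemp : μ ∅ = 0 := by
    have := hadd ∅ ∅ (Set.disjoint_empty _)
    rw [Set.union_empty] at this
    linarith
  have key : ∀ s : Finset (Fin n), μ (f '' (A ∩ {x | ∃ j ∈ s, x ∈ V j})) = ∑ j ∈ s, μ (f '' (A ∩ V j)) := by
    intro s
    induction s using Finset.induction_on with
    | empty =>
      have : A ∩ {x | ∃ j ∈ (∅ : Finset (Fin n)), x ∈ V j} = ∅ := by
        ext x; simp
      rw [this, Set.image_empty, hemp, Finset.sum_empty]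
    | insert j s hj ih =>
      rw [Finset.sum_insert hj, ← ih]
      have h1 : A ∩ {x | ∃ i ∈ insert j s, x ∈ V i} = (A ∩ V j) ∪ (A ∩ {x | ∃ i ∈ s, x ∈ V i}) := by
        ext x
        constructor
        · rintro ⟨hx, i, hi, hxi⟩
          rcases Finset.mem_insert.mp hi with rfl | hi
          · exact Or.inl ⟨hx, hxi⟩
          · exact Or.inr ⟨hx, i, hi, hxi⟩
        · rintro (⟨hx, hxj⟩ | ⟨hx, i, hi, hxi⟩)
          · exact ⟨hx, j, Finset.mem_insert_self _ _, hxj⟩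
          · exact ⟨hx, i, Finset.mem_insert_of_mem hi, hxi⟩
      rw [h1, Set.image_union]
      apply hadd
      apply (Set.disjoint_image_iff hf).mpr
      rw [Set.disjoint_left]
      rintro x ⟨_, hxj⟩ ⟨_, i, hi, hxi⟩
      have hne : j ≠ i := by
        rintro rfl
        exact hj hi
      exact Set.disjoint_left.mp (hdis j i hne) hxj hxi
  have h2 : A ∩ {x | ∃ j ∈ (Finset.univ : Finset (Fin n)), x ∈ V j} = A := by
    ext x
    constructor
    · exact fun h => h.1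
    · intro h
      obtain ⟨i, hi⟩ := hcov x
      exact ⟨h, i, Finset.mem_univ _, hi⟩
  rw [← key Finset.univ, h2]

/-- TARGET -/
theorem extend_mean (G : Subgroup (C ≃ₜ C)) (U : Set C) (μ : Set C → ℝ) (h0 : ∀ A, 0 ≤ μ A)
    (hadd : ∀ A B : Set C, Disjoint A B → μ (A ∪ B) = μ A + μ B) (hU1 : μ U = 1)
    (hglob : ∀ g ∈ G, ∀ A ⊆ U, g '' A ⊆ U → μ (g '' A) = μ A)
    (O : Set C) (hO : ∀ g ∈ G, ∀ x, x ∈ O ↔ g x ∈ O) (hμO : μ Oᶜ = 0)
    (n : ℕ) (V : Fin n → Set C) (γ : Fin n → (C ≃ₜ C)) (hγ : ∀ i, γ i ∈ G) (hdis : ∀ i j, i ≠ j → Disjoint (V i) (V j))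
    (hcov : ∀ x, ∃ i, x ∈ V i) (hVU : ∀ i, γ i '' V i ⊆ U) :
    ∃ ν : Set C → ℝ, (∀ A, 0 ≤ ν A) ∧ ν Set.univ = 1 ∧ (∀ A B : Set C, Disjoint A B → ν (A ∪ B) = ν A + ν B) ∧
      (∀ g ∈ G, ∀ A, ν (g '' A) = ν A) ∧ ν O = 1 := by
  classical
  have hmono : ∀ A B : Set C, A ⊆ B → μ A ≤ μ B := by
    intro A B hAB
    have h1 := hadd A (B \ A) Set.disjoint_sdiff_right
    rw [Set.union_diff_cancel hAB] at h1
    have := h0 (B \ A)
    linarith
  have hν0 : ∀ W : Set C, 0 ≤ ∑ i, μ (γ i '' (W ∩ V i)) := fun W => Finset.sum_nonneg fun i _ => h0 _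
  have hνadd : ∀ A B : Set C, Disjoint A B → ∑ i, μ (γ i '' ((A ∪ B) ∩ V i))
      = ∑ i, μ (γ i '' (A ∩ V i)) + ∑ i, μ (γ i '' (B ∩ V i)) := by
    intro A B hAB
    rw [← Finset.sum_add_distrib]
    refine Finset.sum_congr rfl fun i _ => ?_
    rw [Set.union_inter_distrib_right, Set.image_union]
    apply hadd
    apply (Set.disjoint_image_iff (γ i).injective).mpr
    exact hAB.mono Set.inter_subset_left Set.inter_subset_left
  have hνinv : ∀ g ∈ G, ∀ W : Set C, ∑ j, μ (γ j '' ((g '' W) ∩ V j)) = ∑ i, μ (γ i '' (W ∩ V i)) := by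
    intro g hg W
    have e1 : ∀ j, μ (γ j '' ((g '' W) ∩ V j)) = ∑ i, μ ((fun x => γ j (g x)) '' ((W ∩ g ⁻¹' V j) ∩ V i)) := by
      intro j
      rw [← extend_mean_dec μ hadd n V hdis hcov (fun x => γ j (g x))
        ((γ j).injective.comp g.injective) (W ∩ g ⁻¹' V j)]
      congr 1
      ext y
      constructor
      · rintro ⟨_, ⟨⟨x, hx, rfl⟩, hxj⟩, rfl⟩
        exact ⟨x, ⟨hx, hxj⟩, rfl⟩
      · rintro ⟨x, ⟨hx, hxj⟩, rfl⟩
        exact ⟨g x, ⟨⟨x, hx, rfl⟩, hxj⟩, rfl⟩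
    have e2 : ∀ i, μ (γ i '' (W ∩ V i)) = ∑ j, μ (γ i '' ((W ∩ V i) ∩ g ⁻¹' V j)) := by
      intro i
      exact extend_mean_dec μ hadd n (fun j => g ⁻¹' V j)
        (fun i j hij => (hdis i j hij).preimage _) (fun x => hcov (g x)) (γ i) (γ i).injective (W ∩ V i)
    rw [Finset.sum_congr rfl fun j _ => e1 j, Finset.sum_congr rfl fun i _ => e2 i, Finset.sum_comm]
    refine Finset.sum_congr rfl fun i _ => Finset.sum_congr rfl fun j _ => ?_
    have hG : γ j * g * (γ i)⁻¹ ∈ G := G.mul_mem (G.mul_mem (hγ j) hg) (G.inv_mem (hγ i))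
    have himg : (γ j * g * (γ i)⁻¹ : C ≃ₜ C) '' (γ i '' ((W ∩ V i) ∩ g ⁻¹' V j))
        = (fun x => γ j (g x)) '' ((W ∩ g ⁻¹' V j) ∩ V i) := by
      ext y
      constructor
      · rintro ⟨_, ⟨x, ⟨⟨hx, hxi⟩, hxj⟩, rfl⟩, rfl⟩
        refine ⟨x, ⟨⟨hx, hxj⟩, hxi⟩, ?_⟩
        show γ j (g x) = γ j (g ((γ i).symm (γ i x)))
        rw [(γ i).symm_apply_apply]
      · rintro ⟨x, ⟨⟨hx, hxj⟩, hxi⟩, rfl⟩
        refine ⟨γ i x, ⟨x, ⟨⟨hx, hxi⟩, hxj⟩, rfl⟩, ?_⟩
        show γ j (g ((γ i).symm (γ i x))) = γ j (g x)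
        rw [(γ i).symm_apply_apply]
    rw [← himg]
    apply hglob _ hG
    · exact (Set.image_mono (fun x hx => hx.1.2)).trans (hVU i)
    · rw [himg]
      rintro _ ⟨x, ⟨⟨_, hxj⟩, _⟩, rfl⟩
      exact hVU j ⟨g x, hxj, rfl⟩
  have hνmono : ∀ A B : Set C, A ⊆ B → ∑ i, μ (γ i '' (A ∩ V i)) ≤ ∑ i, μ (γ i '' (B ∩ V i)) := by
    intro A B hAB
    refine Finset.sum_le_sum fun i _ => hmono _ _ (Set.image_mono ?_)
    exact Set.inter_subset_inter_left _ hAB
  have hU : ∑ i, μ (γ i '' (U ∩ V i)) = 1 := by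
    have e1 : ∀ i, μ (γ i '' (U ∩ V i)) = μ (id '' (U ∩ V i)) := by
      intro i
      rw [Set.image_id]
      exact hglob _ (hγ i) _ Set.inter_subset_left
        ((Set.image_mono Set.inter_subset_right).trans (hVU i))
    rw [Finset.sum_congr rfl fun i _ => e1 i,
      ← extend_mean_dec μ hadd n V hdis hcov id Function.injective_id U, Set.image_id, hU1]
  have hT : 0 < ∑ i, μ (γ i '' (Set.univ ∩ V i)) := by
    have := hνmono U Set.univ (Set.subset_univ _)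
    rw [hU] at this
    linarith
  have hOc : ∑ i, μ (γ i '' (Oᶜ ∩ V i)) = 0 := by
    apply le_antisymm _ (hν0 _)
    calc ∑ i, μ (γ i '' (Oᶜ ∩ V i)) ≤ ∑ i : Fin n, 0 := by
          refine Finset.sum_le_sum fun i _ => ?_
          rw [← hμO]
          apply hmono
          rintro _ ⟨x, ⟨hx, _⟩, rfl⟩
          exact fun hcon => hx ((hO _ (hγ i) x).mpr hcon)
      _ = 0 := by simp
  refine ⟨fun W => (∑ i, μ (γ i '' (W ∩ V i))) / ∑ i, μ (γ i '' (Set.univ ∩ V i)), ?_, ?_, ?_, ?_, ?_⟩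
  · intro A
    exact div_nonneg (hν0 A) hT.le
  · exact div_self hT.ne'
  · intro A B hAB
    show _ / _ = _ / _ + _ / _
    rw [hνadd A B hAB, add_div]
  · intro g hg A
    show _ / _ = _ / _
    rw [hνinv g hg A]
  · show _ / _ = _
    have h1 := hνadd O Oᶜ disjoint_compl_right
    rw [Set.union_compl_self, hOc, add_zero] at h1
    rw [← h1]
    exact div_self hT.ne'

end Pool.Agent.Helper889.Fg
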