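import Mathlib
import Pool.Agent.Helper889.Fg.Defs

set_option autoImplicit false
set_option linter.unusedSectionVars false
set_option linter.unusedVariables false

namespace Pool.Agent.Helper889.Fg



/-- TARGET -/
theorem glob_inv (μ : Set C → ℝ) (hadd : ∀ A B : Set C, Disjoint A B → μ (A ∪ B) = μ A + μ B)
    (U : Set C) (hU : IsClopen U) (g : C ≃ₜ C)
    (hloc : ∀ x ∈ U, g x ∈ U → ∃ N : Set C, IsClopen N ∧ x ∈ N ∧ ∀ A ⊆ N, μ (g '' A) = μ A) :
    ∀ A ⊆ U, g '' A ⊆ U → μ (g '' A) = μ A := by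
  have h0 : μ ∅ = 0 := by
    have := hadd ∅ ∅ (by simp)
    simp only [Set.union_empty] at this
    linarith
  have hD : IsCompact (U ∩ g ⁻¹' U) :=
    (hU.isClosed.inter (hU.isClosed.preimage g.continuous)).isCompact
  have key : ∀ A ⊆ U ∩ g ⁻¹' U, μ (g '' A) = μ A := by
    refine IsCompact.induction_on (p := fun K => ∀ A ⊆ K, μ (g '' A) = μ A) hD ?_ ?_ ?_ ?_
    · intro A hA
      have : A = ∅ := Set.subset_empty_iff.1 hA
      subst this
      simp
    · intro s t hst ht A hA
      exact ht A (hA.trans hst)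
    · intro s t hs ht A hA
      have e1 : A = (A ∩ s) ∪ (A \ s) := (Set.inter_union_diff A s).symm
      have d1 : Disjoint (A ∩ s) (A \ s) := Set.disjoint_sdiff_inter.symm
      have d2 : Disjoint (g '' (A ∩ s)) (g '' (A \ s)) :=
        (Set.disjoint_image_iff g.injective).2 d1
      have h1 := hs (A ∩ s) Set.inter_subset_right
      have h2 := ht (A \ s) (by
        intro x hx
        rcases hA hx.1 with h | h
        · exact absurd h hx.2
        · exact h)
      calc μ (g '' A) = μ (g '' ((A ∩ s) ∪ (A \ s))) := by rw [← e1]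
        _ = μ (g '' (A ∩ s) ∪ g '' (A \ s)) := by rw [Set.image_union]
        _ = μ (g '' (A ∩ s)) + μ (g '' (A \ s)) := hadd _ _ d2
        _ = μ (A ∩ s) + μ (A \ s) := by rw [h1, h2]
        _ = μ ((A ∩ s) ∪ (A \ s)) := (hadd _ _ d1).symm
        _ = μ A := by rw [← e1]
    · intro x hx
      obtain ⟨N, hN, hxN, h⟩ := hloc x hx.1 hx.2
      exact ⟨N, mem_nhdsWithin_of_mem_nhds (hN.isOpen.mem_nhds hxN), h⟩
  intro A hA hgA
  apply key
  intro x hx
  exact ⟨hA hx, hgA (Set.mem_image_of_mem g hx)⟩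

end Pool.Agent.Helper889.Fg
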