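import Mathlib
import Pool.Agent.Helper889.Fg.Defs

set_option autoImplicit false

namespace Pool.Agent.Helper889.Fg

/-- the stabiliser of `x` in `G` -/
def stabG (G : Subgroup (C ≃ₜ C)) (x : C) : Subgroup (C ≃ₜ C) where
  carrier := {g | g ∈ G ∧ g x = x}
  one_mem' := ⟨one_mem _, rfl⟩
  mul_mem' := by
    rintro a b ⟨ha, ha'⟩ ⟨hb, hb'⟩
    refine ⟨mul_mem ha hb, ?_⟩
    show a (b x) = x
    rw [hb', ha']
  inv_mem' := by
    rintro a ⟨ha, ha'⟩
    refine ⟨inv_mem ha, ?_⟩
    show a.symm x = x
    rw [Homeomorph.symm_apply_eq, ha']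

/-- the elements of the stabiliser of `x` which are the identity near `x` -/
def germK (G : Subgroup (C ≃ₜ C)) (x : C) : Subgroup (stabG G x) where
  carrier := {g | ∀ᶠ y in nhds x, g.1 y = y}
  one_mem' := Filter.Eventually.of_forall fun y => rfl
  mul_mem' := by
    intro a b ha hb
    have h1 : Filter.Tendsto b.1 (nhds x) (nhds x) := by
      have := b.1.continuous.tendsto x
      rwa [b.2.2] at this
    filter_upwards [hb, h1.eventually ha] with y hy hy'
    show a.1 (b.1 y) = y
    rw [hy', hy]
  inv_mem' := by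
    intro a ha
    have h1 : Filter.Tendsto a.1.symm (nhds x) (nhds x) := by
      have := a.1.symm.continuous.tendsto x
      have e : a.1.symm x = x := by rw [Homeomorph.symm_apply_eq, a.2.2]
      rwa [e] at this
    filter_upwards [h1.eventually ha] with y hy
    show a.1.symm y = y
    rw [a.1.apply_symm_apply] at hy
    exact hy.symm

instance (G : Subgroup (C ≃ₜ C)) (x : C) : (germK G x).Normal := by
  constructor
  intro n hn g
  have h1 : Filter.Tendsto g.1.symm (nhds x) (nhds x) := by
    have := g.1.symm.continuous.tendsto x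
    have e : g.1.symm x = x := by rw [Homeomorph.symm_apply_eq, g.2.2]
    rwa [e] at this
  show ∀ᶠ y in nhds x, (g * n * g⁻¹).1 y = y
  filter_upwards [h1.eventually hn] with y hy
  show g.1 (n.1 (g.1.symm y)) = y
  rw [hy, g.1.apply_symm_apply]

end Pool.Agent.Helper889.Fg
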