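import Mathlib
import Pool.Agent.Helper889.Fg.Defs
import Pool.Agent.Helper889.Fg.Germ

set_option autoImplicit false
set_option linter.unusedSectionVars false
set_option linter.unusedVariables false

namespace Pool.Agent.Helper889.Fg




/-- TARGET: amenability passes to subgroups -/
theorem mean_of_subgroup {M : Type} [Group M] (D : Subgroup M)
    (hM : ∃ m : Set M → ℝ, (∀ A, 0 ≤ m A) ∧ m Set.univ = 1 ∧ (∀ A B, Disjoint A B → m (A ∪ B) = m A + m B) ∧
      ∀ (g : M) A, m ((fun x => g * x) '' A) = m A) :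
    ∃ m : Set D → ℝ, (∀ A, 0 ≤ m A) ∧ m Set.univ = 1 ∧ (∀ A B, Disjoint A B → m (A ∪ B) = m A + m B) ∧
      ∀ (g : D) A, m ((fun x => g * x) '' A) = m A := by
  classical
  obtain ⟨m, hm0, hm1, hmadd, hminv⟩ := hM
  let t : M → M := fun x => (Quotient.mk (QuotientGroup.rightRel D) x).out
  have hD : ∀ x, x * (t x)⁻¹ ∈ D := by
    intro x
    have h1 : (QuotientGroup.rightRel D) (t x) x := Quotient.exact (Quotient.out_eq _)
    exact QuotientGroup.rightRel_apply.mp h1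
  have ht : ∀ (g : D) (x : M), t ((g : M) * x) = t x := by
    intro g x
    have h1 : Quotient.mk (QuotientGroup.rightRel D) ((g : M) * x)
        = Quotient.mk (QuotientGroup.rightRel D) x := by
      apply Quotient.sound
      apply QuotientGroup.rightRel_apply.mpr
      have : x * ((g : M) * x)⁻¹ = (g : M)⁻¹ := by group
      rw [this]
      exact D.inv_mem g.2
    show (Quotient.mk (QuotientGroup.rightRel D) ((g : M) * x)).out = _
    rw [h1]
  let d : M → D := fun x => ⟨x * (t x)⁻¹, hD x⟩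
  have hd : ∀ (g : D) (x : M), d ((g : M) * x) = g * d x := by
    intro g x
    apply Subtype.ext
    show (g : M) * x * (t ((g : M) * x))⁻¹ = (g : M) * (x * (t x)⁻¹)
    rw [ht, mul_assoc]
  refine ⟨fun A => m (d ⁻¹' A), fun A => hm0 _, ?_, ?_, ?_⟩
  · show m (d ⁻¹' Set.univ) = 1
    rw [Set.preimage_univ, hm1]
  · intro A B hAB
    show m (d ⁻¹' (A ∪ B)) = _
    rw [Set.preimage_union]
    exact hmadd _ _ (hAB.preimage d)
  · intro g A
    show m (d ⁻¹' ((fun x => g * x) '' A)) = m (d ⁻¹' A)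
    rw [← hminv (g : M) (d ⁻¹' A)]
    congr 1
    ext x
    simp only [Set.mem_preimage, Set.mem_image]
    constructor
    · rintro ⟨a, ha, hx⟩
      refine ⟨(g : M)⁻¹ * x, ?_, by group⟩
      have h1 := hd g⁻¹ x
      have h2 : d ((g : M)⁻¹ * x) = g⁻¹ * d x := h1
      rw [h2, ← hx]
      simpa using ha
    · rintro ⟨y, hy, rfl⟩
      exact ⟨d y, hy, (hd g y).symm⟩

/-- a mean passes to quotients -/
theorem mean_of_surjective {M Q : Type} [Group M] [Group Q] (f : M →* Q) (hf : Function.Surjective f)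
    (hM : ∃ m : Set M → ℝ, (∀ A, 0 ≤ m A) ∧ m Set.univ = 1 ∧ (∀ A B, Disjoint A B → m (A ∪ B) = m A + m B) ∧
      ∀ (g : M) A, m ((fun x => g * x) '' A) = m A) :
    ∃ m : Set Q → ℝ, (∀ A, 0 ≤ m A) ∧ m Set.univ = 1 ∧ (∀ A B, Disjoint A B → m (A ∪ B) = m A + m B) ∧
      ∀ (g : Q) A, m ((fun x => g * x) '' A) = m A := by
  obtain ⟨m, h0, h1, hadd, hinv⟩ := hM
  refine ⟨fun A => m (f ⁻¹' A), fun A => h0 _, ?_, ?_, ?_⟩
  · change m (f ⁻¹' Set.univ) = 1
    rw [Set.preimage_univ, h1]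
  · intro A B hAB
    change m (f ⁻¹' (A ∪ B)) = m (f ⁻¹' A) + m (f ⁻¹' B)
    rw [Set.preimage_union]
    exact hadd _ _ (hAB.preimage f)
  · intro g A
    obtain ⟨g, rfl⟩ := hf g
    change m (f ⁻¹' ((fun x => f g * x) '' A)) = m (f ⁻¹' A)
    rw [← hinv g (f ⁻¹' A)]
    congr 1
    ext x
    simp only [Set.mem_preimage, Set.mem_image]
    constructor
    · rintro ⟨y, hy, hy'⟩
      refine ⟨g⁻¹ * x, ?_, by group⟩
      rw [map_mul, map_inv, ← hy', inv_mul_cancel_left]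
      exact hy
    · rintro ⟨y, hy, rfl⟩
      exact ⟨f y, hy, (map_mul f g y).symm⟩



/-- TARGET: if `G_U` has a mean then the group of germs of `G` at any point has a mean -/
theorem germ_mean (G : Subgroup (C ≃ₜ C))
    (hmin : ∀ x : C, Dense {y : C | ∃ g ∈ G, g x = y})
    (U : Set C) (hU : IsClopen U) (hne : U.Nonempty) (H : Subgroup (C ≃ₜ C)) (hH : ∀ g : C ≃ₜ C, g ∈ H ↔ (g ∈ G ∧ ∀ x ∉ U, g x = x))
    (germ_onto : ∀ x ∈ U, ∀ g ∈ G, g x = x → ∃ h ∈ H, h x = x ∧ ∀ᶠ y in nhds x, h y = g y)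
    (hM : ∃ μ : Set ↥H → ℝ, (∀ A, 0 ≤ μ A) ∧ μ Set.univ = 1 ∧
          (∀ A B : Set ↥H, Disjoint A B → μ (A ∪ B) = μ A + μ B) ∧
          (∀ (g : ↥H) (A : Set ↥H), μ ((fun x : ↥H => g * x) ⁻¹' A) = μ A)) (x : C) :
    ∃ μ : Set (stabG G x ⧸ germK G x) → ℝ, (∀ A, 0 ≤ μ A) ∧ μ Set.univ = 1 ∧
          (∀ A B : Set (stabG G x ⧸ germK G x), Disjoint A B → μ (A ∪ B) = μ A + μ B) ∧
          (∀ (g : stabG G x ⧸ germK G x) (A : Set (stabG G x ⧸ germK G x)), μ ((fun x => g * x) ⁻¹' A) = μ A) := by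
  classical
  obtain ⟨y0, hyU, k, hkG, hkx⟩ := (hmin x).inter_open_nonempty U hU.isOpen hne
  have hkU : k x ∈ U := by rw [hkx]; exact hyU
  obtain ⟨μ, hμ0, hμ1, hμadd, hμinv⟩ := hM
  have hM' : ∃ m : Set H → ℝ, (∀ A, 0 ≤ m A) ∧ m Set.univ = 1 ∧
      (∀ A B, Disjoint A B → m (A ∪ B) = m A + m B) ∧
      ∀ (g : H) A, m ((fun x => g * x) '' A) = m A := by
    refine ⟨μ, hμ0, hμ1, hμadd, ?_⟩
    intro g A
    have e : (fun x => g * x) '' A = (fun x => g⁻¹ * x) ⁻¹' A := Set.image_mul_left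
    rw [e]
    exact hμinv g⁻¹ A
  let D : Subgroup H :=
    { carrier := {h | h.1 (k x) = k x}
      one_mem' := rfl
      mul_mem' := by
        intro a b ha hb
        show a.1 (b.1 (k x)) = k x
        have ha' : a.1 (k x) = k x := ha
        have hb' : b.1 (k x) = k x := hb
        rw [hb', ha']
      inv_mem' := by
        intro a ha
        have ha' : a.1 (k x) = k x := ha
        show a.1.symm (k x) = k x
        rw [Homeomorph.symm_apply_eq, ha'] }
  let φf : D → stabG G x := fun h => ⟨k⁻¹ * h.1.1 * k,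
    ⟨mul_mem (mul_mem (inv_mem hkG) ((hH _).mp h.1.2).1) hkG, by
      show k.symm (h.1.1 (k x)) = x
      have h1 : h.1.1 (k x) = k x := h.2
      rw [h1, k.symm_apply_apply]⟩⟩
  let φ0 : D →* stabG G x := MonoidHom.mk' φf (by
    intro a b
    apply Subtype.ext
    show k⁻¹ * (a.1.1 * b.1.1) * k = (k⁻¹ * a.1.1 * k) * (k⁻¹ * b.1.1 * k)
    group)
  let φ : D →* (stabG G x ⧸ germK G x) := (QuotientGroup.mk' (germK G x)).comp φ0
  have hφ : Function.Surjective φ := by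
    intro q
    obtain ⟨g, rfl⟩ := QuotientGroup.mk'_surjective (germK G x) q
    have hg1 : g.1 ∈ G := g.2.1
    have hg2 : g.1 x = x := g.2.2
    obtain ⟨h, hhH, hhx, hev⟩ := germ_onto (k x) hkU (k * g.1 * k⁻¹)
      (mul_mem (mul_mem hkG hg1) (inv_mem hkG)) (by
        show k (g.1 (k.symm (k x))) = k x
        rw [k.symm_apply_apply, hg2])
    refine ⟨⟨⟨h, hhH⟩, hhx⟩, ?_⟩
    show (QuotientGroup.mk (φf ⟨⟨h, hhH⟩, hhx⟩) : stabG G x ⧸ germK G x) = QuotientGroup.mk g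
    rw [QuotientGroup.eq]
    have hT : Filter.Tendsto k (nhds x) (nhds (k x)) := k.continuous.tendsto x
    show ∀ᶠ y in nhds x, ((φf ⟨⟨h, hhH⟩, hhx⟩)⁻¹ * g).1 y = y
    filter_upwards [hT.eventually hev] with y hy
    have hy' : h (k y) = k (g.1 y) := by
      have : h (k y) = k (g.1 (k.symm (k y))) := hy
      rwa [k.symm_apply_apply] at this
    have e1 : ((φf ⟨⟨h, hhH⟩, hhx⟩)⁻¹ * g).1 = (k⁻¹ * h * k)⁻¹ * g.1 := rfl
    rw [e1]
    have e2 : (k⁻¹ * h * k)⁻¹ = k⁻¹ * h⁻¹ * k := by group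
    rw [e2]
    show k.symm (h.symm (k (g.1 y))) = y
    rw [← hy', h.symm_apply_apply, k.symm_apply_apply]
  obtain ⟨m, hm0, hm1, hmadd, hminv⟩ := mean_of_surjective φ hφ (mean_of_subgroup D hM')
  refine ⟨m, hm0, hm1, hmadd, ?_⟩
  intro g A
  have e : (fun x => g * x) ⁻¹' A = (fun x => g⁻¹ * x) '' A := by
    have := Set.image_mul_left (a := g⁻¹) (t := A)
    rw [inv_inv] at this
    exact this.symm
  rw [e]
  exact hminv g⁻¹ A

end Pool.Agent.Helper889.Fg
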