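import Mathlib
import Pool.Agent.Helper889.Fg.Defs

set_option autoImplicit false
set_option linter.unusedSectionVars false
set_option linter.unusedVariables false

namespace Pool.Agent.Helper889.Fg



theorem germ_onto (G : Subgroup (C ≃ₜ C))
    (hmin : ∀ x : C, Dense {y : C | ∃ g ∈ G, g x = y})
    (swap_mem : (∀ (k : C ≃ₜ C), k ∈ G → ∀ N : Set C, IsClopen N → Disjoint N (k '' N) →
      ∃ s ∈ G, (∀ y ∈ N, s y = k y) ∧ (∀ y ∈ N, s (k y) = y) ∧ (∀ y, y ∉ N → y ∉ k '' N → s y = y)))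
    (U : Set C) (hU : IsClopen U) (H : Subgroup (C ≃ₜ C)) (hH : ∀ g : C ≃ₜ C, g ∈ H ↔ (g ∈ G ∧ ∀ x ∉ U, g x = x))
    (x : C) (hx : x ∈ U) (g : C ≃ₜ C) (hg : g ∈ G) (hgx : g x = x) :
    ∃ h ∈ H, h x = x ∧ ∀ᶠ y in nhds x, h y = g y := by
  classical
  have hne : (U \ {x}).Nonempty := by
    obtain ⟨I, u, hIu, hsub⟩ := isOpen_pi_iff.1 hU.isOpen x hx
    obtain ⟨i, hi⟩ := Infinite.exists_notMem_finset I
    refine ⟨Function.update x i (!(x i)), hsub ?_, ?_⟩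
    · intro j hj
      have hji : j ≠ i := fun h => hi (h ▸ hj)
      rw [Function.update_of_ne hji]
      exact (hIu j hj).2
    · intro h
      have := congrFun h i
      rw [Function.update_self] at this
      cases hxi : x i <;> rw [hxi] at this <;> exact absurd this (by decide)
  have hop : IsOpen (U \ {x}) := hU.isOpen.sdiff isClosed_singleton
  obtain ⟨_, ⟨k, hk, rfl⟩, hkU, hkx⟩ := (hmin x).exists_mem_open hop hne
  obtain ⟨W, hW, hkW, hWU⟩ := compact_exists_isClopen_in_isOpen hop (show k x ∈ U \ {x} from ⟨hkU, hkx⟩)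
  have hxW : x ∉ W := fun h => (hWU h).2 rfl
  set N : Set C := U ∩ g ⁻¹' U ∩ k ⁻¹' W ∩ Wᶜ ∩ g ⁻¹' Wᶜ with hN
  have hNc : IsClopen N := by
    refine ((((hU.inter (hU.preimage g.continuous)).inter (hW.preimage k.continuous)).inter
      hW.compl).inter (hW.compl.preimage g.continuous))
  have hxN : x ∈ N := by
    refine ⟨⟨⟨⟨hx, ?_⟩, hkW⟩, hxW⟩, ?_⟩
    · show g x ∈ U
      rw [hgx]; exact hx
    · show g x ∈ Wᶜ
      rw [hgx]; exact hxW
  have hkNW : k '' N ⊆ W := by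
    rintro _ ⟨y, hy, rfl⟩
    exact hy.1.1.2
  have hNW : ∀ y ∈ N, y ∉ W := fun y hy => hy.1.2
  have hNU : ∀ y ∈ N, y ∈ U := fun y hy => hy.1.1.1.1
  have hgNU : ∀ y ∈ N, g y ∈ U := fun y hy => hy.1.1.1.2
  have hgNW : ∀ y ∈ N, g y ∉ W := fun y hy => hy.2
  have hdis1 : Disjoint N (k '' N) := by
    rw [Set.disjoint_left]
    intro y hy hy2
    exact hNW y hy (hkNW hy2)
  obtain ⟨s1, hs1G, hs1a, hs1b, hs1c⟩ := swap_mem k hk N hNc hdis1
  have hkNc : IsClopen (k '' N) := by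
    rw [k.image_eq_preimage_symm]
    exact hNc.preimage k.symm.continuous
  have himg : (g * k⁻¹ : C ≃ₜ C) '' (k '' N) = g '' N := by
    ext z
    constructor
    · rintro ⟨_, ⟨y, hy, rfl⟩, rfl⟩
      refine ⟨y, hy, ?_⟩
      show g y = g (k.symm (k y))
      rw [k.symm_apply_apply]
    · rintro ⟨y, hy, rfl⟩
      refine ⟨k y, ⟨y, hy, rfl⟩, ?_⟩
      show g (k.symm (k y)) = g y
      rw [k.symm_apply_apply]
  have hdis2 : Disjoint (k '' N) ((g * k⁻¹ : C ≃ₜ C) '' (k '' N)) := by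
    rw [himg, Set.disjoint_left]
    rintro y hy ⟨z, hz, rfl⟩
    exact hgNW z hz (hkNW hy)
  obtain ⟨s2, hs2G, hs2a, hs2b, hs2c⟩ :=
    swap_mem (g * k⁻¹) (G.mul_mem hg (G.inv_mem hk)) (k '' N) hkNc hdis2
  have hval : ∀ y ∈ N, (s2 * s1 : C ≃ₜ C) y = g y := by
    intro y hy
    show s2 (s1 y) = g y
    rw [hs1a y hy, hs2a (k y) ⟨y, hy, rfl⟩]
    show g (k.symm (k y)) = g y
    rw [k.symm_apply_apply]
  refine ⟨s2 * s1, (hH _).2 ⟨G.mul_mem hs2G hs1G, ?_⟩, ?_, ?_⟩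
  · intro y hy
    show s2 (s1 y) = y
    have h1 : y ∉ N := fun h => hy (hNU y h)
    have h2 : y ∉ k '' N := fun h => hy (hWU (hkNW h)).1
    have h3 : y ∉ (g * k⁻¹ : C ≃ₜ C) '' (k '' N) := by
      rw [himg]
      rintro ⟨z, hz, rfl⟩
      exact hy (hgNU z hz)
    rw [hs1c y h1 h2, hs2c y h2 h3]
  · rw [hval x hxN, hgx]
  · filter_upwards [hNc.isOpen.mem_nhds hxN] with y hy
    exact hval y hy

end Pool.Agent.Helper889.Fg
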