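import Mathlib
import Pool.Agent.Helper889.Fg.Defs

set_option autoImplicit false
set_option linter.unusedSectionVars false
set_option linter.unusedVariables false

namespace Pool.Agent.Helper889.Fg



/-- TARGET -/
theorem loc_inv (G : Subgroup (C ≃ₜ C))
    (hmin : ∀ x : C, Dense {y : C | ∃ g ∈ G, g x = y})
    (swap_mem : (∀ (k : C ≃ₜ C), k ∈ G → ∀ N : Set C, IsClopen N → Disjoint N (k '' N) →
      ∃ s ∈ G, (∀ y ∈ N, s y = k y) ∧ (∀ y ∈ N, s (k y) = y) ∧ (∀ y, y ∉ N → y ∉ k '' N → s y = y)))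
    (U : Set C) (hU : IsClopen U) (H : Subgroup (C ≃ₜ C)) (hH : ∀ g : C ≃ₜ C, g ∈ H ↔ (g ∈ G ∧ ∀ x ∉ U, g x = x))
    (μ : Set C → ℝ) (hinv : ∀ h ∈ H, ∀ A : Set C, μ (h '' A) = μ A)
    (g : C ≃ₜ C) (hg : g ∈ G) (x : C) (hx : x ∈ U) (hgx : g x ∈ U) :
    ∃ N : Set C, IsClopen N ∧ x ∈ N ∧ ∀ A ⊆ N, μ (g '' A) = μ A := by
  classical
  -- a point of `U` different from `x` and `g x`
  obtain ⟨z, hzU, hzx, hzg⟩ : ∃ z ∈ U, z ≠ x ∧ z ≠ g x := by
    obtain ⟨I, u, hu, hsub⟩ := isOpen_pi_iff.1 hU.isOpen x hx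
    obtain ⟨i, hi⟩ := Infinite.exists_notMem_finset I
    obtain ⟨j, hj⟩ := Infinite.exists_notMem_finset (insert i I)
    rw [Finset.mem_insert, not_or] at hj
    have hmem : ∀ l, l ∉ I → Function.update x l (!x l) ∈ U := by
      intro l hl
      apply hsub
      intro a ha
      have hal : a ≠ l := by
        rintro rfl
        exact hl ha
      rw [Function.update_of_ne hal]
      exact (hu a ha).2
    have hne : ∀ l, Function.update x l (!x l) ≠ x := by
      intro l h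
      have := congrFun h l
      rw [Function.update_self] at this
      cases hxl : x l <;> simp [hxl] at this
    have hij : Function.update x i (!x i) ≠ Function.update x j (!x j) := by
      intro h
      have := congrFun h i
      rw [Function.update_self, Function.update_of_ne (Ne.symm hj.1)] at this
      cases hxl : x i <;> simp [hxl] at this
    by_cases h : Function.update x i (!x i) = g x
    · exact ⟨_, hmem j hj.2, hne j, fun h' => hij (h.trans h'.symm)⟩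
    · exact ⟨_, hmem i hi, hne i, h⟩
  have hopen : IsOpen (U ∩ {x, g x}ᶜ) :=
    hU.isOpen.inter (Set.Finite.isClosed (by simp)).isOpen_compl
  obtain ⟨y, ⟨hyU, hyn⟩, k, hk, hky⟩ := (hmin x).inter_open_nonempty _ hopen
    ⟨z, hzU, by simp [hzx, hzg]⟩
  simp only [Set.mem_compl_iff, Set.mem_insert_iff, Set.mem_singleton_iff, not_or] at hyn
  rw [← hky] at hyU hyn
  obtain ⟨W, hW, hkW, hWs⟩ := compact_exists_isClopen_in_isOpen hopen
    (show k x ∈ U ∩ {x, g x}ᶜ from ⟨hyU, by simp [hyn.1, hyn.2]⟩)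
  have hWU : W ⊆ U := fun w hw => (hWs hw).1
  have hxW : x ∉ W := fun hw => (hWs hw).2 (by simp)
  have hgW : g x ∉ W := fun hw => (hWs hw).2 (by simp)
  obtain ⟨N, hN⟩ : ∃ N : Set C, N = U ∩ (g ⁻¹' U ∩ (k ⁻¹' W ∩ (Wᶜ ∩ g ⁻¹' Wᶜ))) := ⟨_, rfl⟩
  have hNc : IsClopen N := by
    rw [hN]
    exact hU.inter ((hU.preimage g.continuous).inter ((hW.preimage k.continuous).inter
      (hW.compl.inter (hW.compl.preimage g.continuous))))
  have hNx : x ∈ N := by
    rw [hN]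
    exact ⟨hx, hgx, hkW, hxW, hgW⟩
  have hNU : ∀ y ∈ N, y ∈ U := fun y hy => by rw [hN] at hy; exact hy.1
  have hNg : ∀ y ∈ N, g y ∈ U := fun y hy => by rw [hN] at hy; exact hy.2.1
  have hNk : ∀ y ∈ N, k y ∈ W := fun y hy => by rw [hN] at hy; exact hy.2.2.1
  have hNW : ∀ y ∈ N, y ∉ W := fun y hy => by rw [hN] at hy; exact hy.2.2.2.1
  have hNgW : ∀ y ∈ N, g y ∉ W := fun y hy => by rw [hN] at hy; exact hy.2.2.2.2
  have hd1 : Disjoint N (k '' N) := by
    rw [Set.disjoint_left]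
    rintro a ha ⟨b, hb, rfl⟩
    exact hNW _ ha (hNk b hb)
  have hkNc : IsClopen (k '' N) := by
    have : k '' N = k.symm ⁻¹' N := by
      ext a
      constructor
      · rintro ⟨b, hb, rfl⟩
        show k.symm (k b) ∈ N
        rwa [k.symm_apply_apply]
      · intro ha
        exact ⟨k.symm a, ha, k.apply_symm_apply a⟩
    rw [this]
    exact hNc.preimage k.symm.continuous
  have hgk : ∀ y, (g * k⁻¹) (k y) = g y := by
    intro y
    show g (k.symm (k y)) = g y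
    rw [k.symm_apply_apply]
  have hd2 : Disjoint (k '' N) ((g * k⁻¹) '' (k '' N)) := by
    rw [Set.disjoint_left]
    rintro a ⟨b, hb, rfl⟩ ⟨c, ⟨d, hd, rfl⟩, hc⟩
    rw [hgk] at hc
    apply hNgW d hd
    rw [hc]
    exact hNk b hb
  obtain ⟨s1, hs1G, hs1a, hs1b, hs1c⟩ := swap_mem k hk N hNc hd1
  obtain ⟨s2, hs2G, hs2a, hs2b, hs2c⟩ := swap_mem (g * k⁻¹) (G.mul_mem hg (G.inv_mem hk))
    (k '' N) hkNc hd2
  have hs1H : s1 ∈ H := by
    rw [hH]
    refine ⟨hs1G, fun y hy => hs1c y (fun h => hy (hNU y h)) ?_⟩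
    rintro ⟨b, hb, rfl⟩
    exact hy (hWU (hNk b hb))
  have hs2H : s2 ∈ H := by
    rw [hH]
    refine ⟨hs2G, fun y hy => hs2c y ?_ ?_⟩
    · rintro ⟨b, hb, rfl⟩
      exact hy (hWU (hNk b hb))
    · rintro ⟨c, ⟨d, hd, rfl⟩, hc⟩
      rw [hgk] at hc
      rw [← hc] at hy
      exact hy (hNg d hd)
  refine ⟨N, hNc, hNx, fun A hA => ?_⟩
  have e1 : s1 '' A = k '' A := Set.image_congr fun y hy => hs1a y (hA hy)
  have e2 : s2 '' (k '' A) = g '' A := by
    rw [Set.image_image]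
    refine Set.image_congr fun y hy => ?_
    rw [hs2a (k y) ⟨y, hA hy, rfl⟩, hgk]
  rw [← e2, hinv s2 hs2H, ← e1, hinv s1 hs1H]

end Pool.Agent.Helper889.Fg
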