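import Mathlib
import Pool.Agent.Helper889.Fg.Defs

set_option autoImplicit false
set_option linter.unusedSectionVars false
set_option linter.unusedVariables false

namespace Pool.Agent.Helper889.Fg



/-- TARGET -/
theorem swap_mem (G : Subgroup (C ≃ₜ C))
    (hfull : ∀ h : C ≃ₜ C, (∀ x : C, ∃ V ∈ nhds x, ∃ g ∈ G, ∀ y ∈ V, h y = g y) → h ∈ G) :
    ∀ (k : C ≃ₜ C), k ∈ G → ∀ N : Set C, IsClopen N → Disjoint N (k '' N) →
      ∃ s ∈ G, (∀ y ∈ N, s y = k y) ∧ (∀ y ∈ N, s (k y) = y) ∧ (∀ y, y ∉ N → y ∉ k '' N → s y = y) := by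
  classical
  intro k hk N hN hdis
  have hMo : IsOpen (k '' N) := k.isOpenMap N hN.isOpen
  have hMc : IsClosed (k '' N) := k.isClosedMap N hN.isClosed
  let s0 : C → C := fun y => if y ∈ N then k y else if y ∈ k '' N then k.symm y else y
  have hnot : ∀ y ∈ k '' N, y ∉ N := fun y hy hy' => Set.disjoint_left.1 hdis hy' hy
  have h1 : ∀ y ∈ N, s0 y = k y := fun y hy => if_pos hy
  have h2 : ∀ y ∈ k '' N, s0 y = k.symm y := by
    intro y hy
    show (if y ∈ N then k y else if y ∈ k '' N then k.symm y else y) = _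
    rw [if_neg (hnot y hy), if_pos hy]
  have h3 : ∀ y, y ∉ N → y ∉ k '' N → s0 y = y := by
    intro y hy hy'
    show (if y ∈ N then k y else if y ∈ k '' N then k.symm y else y) = _
    rw [if_neg hy, if_neg hy']
  have h4 : ∀ y ∈ N, s0 (k y) = y := by
    intro y hy
    rw [h2 (k y) ⟨y, hy, rfl⟩, Homeomorph.symm_apply_apply]
  have hinv : ∀ y, s0 (s0 y) = y := by
    intro y
    by_cases hy : y ∈ N
    · rw [h1 y hy, h4 y hy]
    · by_cases hy' : y ∈ k '' N
      · obtain ⟨z, hz, rfl⟩ := hy'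
        rw [h4 z hz, h1 z hz]
      · rw [h3 y hy hy', h3 y hy hy']
  have hloc : ∀ x : C, ∃ V ∈ nhds x, ∃ g ∈ G, ∀ y ∈ V, s0 y = g y := by
    intro x
    by_cases hx : x ∈ N
    · exact ⟨N, hN.isOpen.mem_nhds hx, k, hk, h1⟩
    · by_cases hx' : x ∈ k '' N
      · exact ⟨k '' N, hMo.mem_nhds hx', k⁻¹, G.inv_mem hk, fun y hy => h2 y hy⟩
      · refine ⟨(N ∪ k '' N)ᶜ, (hN.isClosed.union hMc).isOpen_compl.mem_nhds ?_, 1, G.one_mem, ?_⟩
        · rintro (h | h)
          · exact hx h
          · exact hx' h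
        · intro y hy
          exact h3 y (fun h => hy (Or.inl h)) (fun h => hy (Or.inr h))
  have hcont : Continuous s0 := by
    rw [continuous_iff_continuousAt]
    intro x
    obtain ⟨V, hV, g, _, hg⟩ := hloc x
    have : ContinuousAt g x := g.continuous.continuousAt
    refine this.congr ?_
    filter_upwards [hV] with y hy
    exact (hg y hy).symm
  let s : C ≃ₜ C :=
    { toFun := s0
      invFun := s0
      left_inv := hinv
      right_inv := hinv
      continuous_toFun := hcont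
      continuous_invFun := hcont }
  exact ⟨s, hfull s hloc, h1, h4, h3⟩

end Pool.Agent.Helper889.Fg
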