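import Mathlib
import Pool.Agent.Helper889.Fg.Swap
import Pool.Agent.Helper889.Fg.Loc
import Pool.Agent.Helper889.Fg.Glob
import Pool.Agent.Helper889.Fg.Cover
import Pool.Agent.Helper889.Fg.Extend
import Pool.Agent.Helper889.Fg.Gonto
import Pool.Agent.Helper889.Fg.Gmean

set_option autoImplicit false
set_option linter.unusedVariables false

namespace Pool.Agent.Helper889.Fg

theorem fin_orbit (G : Subgroup (C ≃ₜ C)) (hmin : ∀ x : C, Dense {y : C | ∃ g ∈ G, g x = y})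
    (hfull : ∀ h : C ≃ₜ C, (∀ x : C, ∃ V ∈ nhds x, ∃ g ∈ G, ∀ y ∈ V, h y = g y) → h ∈ G)
    (U : Set C) (hU : IsClopen U) (hne : U.Nonempty) (H : Subgroup (C ≃ₜ C))
    (hH : ∀ g : C ≃ₜ C, g ∈ H ↔ (g ∈ G ∧ ∀ x ∉ U, g x = x))
    (hA : ∃ μ : Set ↥H → ℝ, (∀ A, 0 ≤ μ A) ∧ μ Set.univ = 1 ∧
          (∀ A B : Set ↥H, Disjoint A B → μ (A ∪ B) = μ A + μ B) ∧
          (∀ (g : ↥H) (A : Set ↥H), μ ((fun x : ↥H => g * x) ⁻¹' A) = μ A)) (x : C) :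
    ∃ ν : Set C → ℝ, (∀ A, 0 ≤ ν A) ∧ ν Set.univ = 1 ∧
      (∀ A B : Set C, Disjoint A B → ν (A ∪ B) = ν A + ν B) ∧
      (∀ g ∈ G, ∀ A : Set C, ν (g '' A) = ν A) ∧ ν {y : C | ∃ g ∈ G, g x = y} = 1 := by
  obtain ⟨m, m0, m1, madd, minv⟩ := hA
  obtain ⟨u0, hu0, k, hk, hkx⟩ := (hmin x).inter_open_nonempty U hU.isOpen hne
  have mempty : m ∅ = 0 := by
    have := madd ∅ ∅ (Set.disjoint_empty _)
    rw [Set.union_empty] at this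
    linarith
  let μ : Set (ℕ → Bool) → ℝ := fun V => m {h : ↥H | h.1 u0 ∈ V}
  have h0 : ∀ A, 0 ≤ μ A := fun A => m0 _
  have hadd : ∀ A B : Set (ℕ → Bool), Disjoint A B → μ (A ∪ B) = μ A + μ B := by
    intro A B hAB
    show m {h : ↥H | h.1 u0 ∈ A ∪ B} = _
    have : {h : ↥H | h.1 u0 ∈ A ∪ B} = {h : ↥H | h.1 u0 ∈ A} ∪ {h : ↥H | h.1 u0 ∈ B} := by
      ext h; rfl
    rw [this]
    apply madd
    rw [Set.disjoint_left]
    intro h h1 h2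
    exact Set.disjoint_left.mp hAB h1 h2
  have hinv : ∀ h ∈ H, ∀ A : Set (ℕ → Bool), μ (h '' A) = μ A := by
    intro h hh A
    show m {h' : ↥H | h'.1 u0 ∈ h '' A} = m {h' : ↥H | h'.1 u0 ∈ A}
    rw [← minv (⟨h, hh⟩⁻¹ : ↥H) {h' : ↥H | h'.1 u0 ∈ A}]
    congr 1
    ext h'
    simp only [Set.mem_ofPred_eq, Set.mem_preimage, Set.mem_image]
    show _ ↔ (h⁻¹ * h'.1) u0 ∈ A
    have e1 : (h⁻¹ * h'.1) u0 = h.symm (h'.1 u0) := rfl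
    rw [e1]
    constructor
    · rintro ⟨a, ha, hae⟩
      rw [← hae, h.symm_apply_apply]
      exact ha
    · intro ha
      exact ⟨_, ha, h.apply_symm_apply _⟩
  have hHU : ∀ h : ↥H, h.1 u0 ∈ U := by
    intro h
    by_contra hcon
    have h1 := ((hH h.1).mp h.2).2 _ hcon
    have h2 := h.1.injective h1
    rw [h2] at hcon
    exact hcon hu0
  have hU1 : μ U = 1 := by
    show m {h : ↥H | h.1 u0 ∈ U} = 1
    have : {h : ↥H | h.1 u0 ∈ U} = Set.univ := Set.eq_univ_of_forall hHU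
    rw [this, m1]
  have hglob : ∀ g ∈ G, ∀ A ⊆ U, g '' A ⊆ U → μ (g '' A) = μ A := by
    intro g hg
    exact Pool.Agent.Helper889.Fg.glob_inv μ hadd U hU g fun y hy hgy =>
      Pool.Agent.Helper889.Fg.loc_inv G hmin (Pool.Agent.Helper889.Fg.swap_mem G hfull) U hU H hH μ hinv g hg y hy hgy
  let O : Set (ℕ → Bool) := {y : ℕ → Bool | ∃ g ∈ G, g x = y}
  have hO : ∀ g ∈ G, ∀ y, y ∈ O ↔ g y ∈ O := by
    intro g hg y
    constructor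
    · rintro ⟨a, ha, rfl⟩
      exact ⟨g * a, mul_mem hg ha, rfl⟩
    · rintro ⟨a, ha, hay⟩
      refine ⟨g⁻¹ * a, mul_mem (inv_mem hg) ha, ?_⟩
      show g.symm (a x) = y
      rw [hay, g.symm_apply_apply]
  have hu0O : u0 ∈ O := ⟨k, hk, hkx⟩
  have hμO : μ Oᶜ = 0 := by
    show m {h : ↥H | h.1 u0 ∈ Oᶜ} = 0
    have : {h : ↥H | h.1 u0 ∈ Oᶜ} = ∅ := by
      apply Set.eq_empty_of_forall_notMem
      intro h hh
      exact hh ((hO h.1 ((hH h.1).mp h.2).1 u0).mp hu0O)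
    rw [this, mempty]
  obtain ⟨n, V, γ, hγ, hdis, hcov, hVU⟩   := Pool.Agent.Helper889.Fg.cover G hmin U hU hne
  exact Pool.Agent.Helper889.Fg.extend_mean G U μ h0 hadd hU1 hglob O hO hμO n V γ hγ hdis hcov hVU



theorem fin_germ (G : Subgroup (C ≃ₜ C)) (hmin : ∀ x : C, Dense {y : C | ∃ g ∈ G, g x = y})
    (hfull : ∀ h : C ≃ₜ C, (∀ x : C, ∃ V ∈ nhds x, ∃ g ∈ G, ∀ y ∈ V, h y = g y) → h ∈ G)
    (U : Set C) (hU : IsClopen U) (hne : U.Nonempty) (H : Subgroup (C ≃ₜ C))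
    (hH : ∀ g : C ≃ₜ C, g ∈ H ↔ (g ∈ G ∧ ∀ x ∉ U, g x = x))
    (hA : ∃ μ : Set ↥H → ℝ, (∀ A, 0 ≤ μ A) ∧ μ Set.univ = 1 ∧
          (∀ A B : Set ↥H, Disjoint A B → μ (A ∪ B) = μ A + μ B) ∧
          (∀ (g : ↥H) (A : Set ↥H), μ ((fun x : ↥H => g * x) ⁻¹' A) = μ A)) (x : C)
    (S : Subgroup (C ≃ₜ C)) (hS : ∀ g, g ∈ S ↔ (g ∈ G ∧ g x = x)) (Γ : Type) [Group Γ] (π : S →* Γ)
    (hπ : Function.Surjective π) (hker : ∀ s : S, π s = 1 ↔ ∀ᶠ y in nhds x, s.1 y = y) :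
    ∃ μ : Set Γ → ℝ, (∀ A, 0 ≤ μ A) ∧ μ Set.univ = 1 ∧
      (∀ A B : Set Γ, Disjoint A B → μ (A ∪ B) = μ A + μ B) ∧
      ∀ (g : Γ) (A : Set Γ), μ ((fun x => g * x) ⁻¹' A) = μ A := by
  have hSe : S = stabG G x := by
    ext g
    rw [hS]
    rfl
  subst hSe
  obtain ⟨m, m0, m1, madd, minv⟩ := germ_mean G hmin U hU hne H hH
      (fun x hx g hg hgx => germ_onto G hmin (swap_mem G hfull) U hU H hH x hx g hg hgx) hA x
  let f : (stabG G x ⧸ germK G x) →* Γ := QuotientGroup.lift (germK G x) π (fun s hs => (hker s).mpr hs)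
  have hf : Function.Surjective f := by
    intro g
    obtain ⟨s, rfl⟩ := hπ g
    exact ⟨QuotientGroup.mk s, rfl⟩
  refine ⟨fun A => m (f ⁻¹' A), fun A => m0 _, ?_, ?_, ?_⟩
  · show m (f ⁻¹' Set.univ) = 1
    rw [Set.preimage_univ, m1]
  · intro A B hAB
    show m (f ⁻¹' (A ∪ B)) = m (f ⁻¹' A) + m (f ⁻¹' B)
    rw [Set.preimage_union]
    exact madd _ _ (hAB.preimage f)
  · intro g A
    obtain ⟨q, rfl⟩ := hf g
    show m (f ⁻¹' ((fun x => f q * x) ⁻¹' A)) = m (f ⁻¹' A)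
    rw [← minv q (f ⁻¹' A)]
    congr 1
    ext y
    show f q * f y ∈ A ↔ f (q * y) ∈ A
    rw [map_mul]

end Pool.Agent.Helper889.Fg
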